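import Mathlib

/-!
# The `L(2,1)`-labeling number of iterated Mycielski graphs

For every graph `G` of order `n ≥ 1` and maximum degree `Δ` and every `t ≥ 1`,
`λ(M^t(G)) ≤ (2^t - 1)(n + 1) + Δ^2`.
-/

namespace Pool.Agent.Results.MP_f0917b_co.AllGraphs

open Finset

/-! ### Definitions -/

section defs

variable {V : Type}

/-- `f` is an `L(2,1)`-labeling of `G`. -/
def IsL21 (G : SimpleGraph V) (f : V → ℕ) : Prop :=
  (∀ u v, G.Adj u v → (2 : ℤ) ≤ |(f u : ℤ) - f v|) ∧
    ∀ u v, G.dist u v = 2 → (1 : ℤ) ≤ |(f u : ℤ) - f v|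

/-- the `L(2,1)`-labeling number: the least `k` such that there is an `L(2,1)`-labeling with all
labels in `{0, ..., k}` -/
noncomputable def lam (G : SimpleGraph V) : ℕ := sInf {k | ∃ f, IsL21 G f ∧ ∀ v, f v ≤ k}

/-- adjacency in the Mycielski graph: the first copy is `u`, the second one `u'`, and the last
vertex is `w`. -/
def mycAdj (G : SimpleGraph V) : V ⊕ (V ⊕ Unit) → V ⊕ (V ⊕ Unit) → Prop
  | .inl i, .inl j => G.Adj i j
  | .inl i, .inr (.inl j) => G.Adj i j
  | .inl _, .inr (.inr _) => False
  | .inr (.inl i), .inl j => G.Adj i j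
  | .inr (.inl _), .inr (.inl _) => False
  | .inr (.inl _), .inr (.inr _) => True
  | .inr (.inr _), .inl _ => False
  | .inr (.inr _), .inr (.inl _) => True
  | .inr (.inr _), .inr (.inr _) => False

/-- the Mycielski graph of `G` -/
def myc (G : SimpleGraph V) : SimpleGraph (V ⊕ (V ⊕ Unit)) where
  Adj := mycAdj G
  symm := by
    refine ⟨?_⟩
    rintro (i | i | i) (j | j | j) h
    · exact G.adj_symm h
    · exact G.adj_symm h
    · exact h
    · exact G.adj_symm h
    · exact h
    · exact h
    · exact h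
    · exact h
    · exact h
  loopless := by
    refine ⟨?_⟩
    rintro (i | i | i) h
    · exact G.irrefl h
    · exact h
    · exact h

/-- the vertex type of the `t`-th iterated Mycielski graph -/
def MycType (V : Type) : ℕ → Type
  | 0 => V
  | t + 1 => MycType V t ⊕ (MycType V t ⊕ Unit)

/-- the `t`-th iterated Mycielski graph -/
def mycIter (G : SimpleGraph V) : (t : ℕ) → SimpleGraph (MycType V t)
  | 0 => G
  | t + 1 => myc (mycIter G t)

end defs

/-! ### Good labelings -/

section good

variable {V : Type}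

/-- an elementary form of `L(2,1)`-labelings -/
def Good (G : SimpleGraph V) (f : V → ℕ) : Prop :=
  (∀ x y, G.Adj x y → f x + 2 ≤ f y ∨ f y + 2 ≤ f x) ∧
    ∀ x z y, G.Adj x z → G.Adj z y → x ≠ y → f x ≠ f y

theorem Good.isL21 {G : SimpleGraph V} {f : V → ℕ} (h : Good G f) : IsL21 G f := by
  constructor
  · intro u v huv
    have := h.1 u v huv
    rw [le_abs]
    omega
  · intro u v huv
    have hne : u ≠ v := by
      rintro rfl
      simp at huv
    have hr : G.Reachable u v := by
      by_contra hcon
      rw [SimpleGraph.dist_eq_zero_of_not_reachable hcon] at huv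
      omega
    obtain ⟨p, hp⟩ := hr.exists_walk_length_eq_dist
    rw [huv] at hp
    have h1 := p.adj_getVert_succ (i := 0) (by omega)
    have h2 := p.adj_getVert_succ (i := 1) (by omega)
    rw [p.getVert_zero] at h1
    have h3 : p.getVert (1 + 1) = v := by
      have := p.getVert_length
      rw [hp] at this
      exact this
    rw [h3] at h2
    have := h.2 u _ v h1 h2 hne
    rw [le_abs]
    omega

/-- the labeling of the Mycielski graph with `a` on the vertices `u`, `b` on the vertices `u'` and
`0` on `w` -/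
def lab (a b : V → ℕ) : V ⊕ (V ⊕ Unit) → ℕ
  | .inl i => a i
  | .inr (.inl i) => b i
  | .inr (.inr _) => 0

theorem good_myc (G : SimpleGraph V) (a b : V → ℕ)
    (h1 : ∀ i j, G.Adj i j → a i + 2 ≤ a j ∨ a j + 2 ≤ a i)
    (h2 : ∀ i k j, G.Adj i k → G.Adj k j → i ≠ j → a i ≠ a j)
    (h3 : ∀ i j, G.Adj i j → a i + 2 ≤ b j ∨ b j + 2 ≤ a i)
    (h4 : ∀ i k j, G.Adj i k → G.Adj k j → a i ≠ b j)
    (h5 : Function.Injective b) (h6 : ∀ j, 2 ≤ b j) (h7 : ∀ i, 1 ≤ a i) :
    Good (myc G) (lab a b) := by
  constructor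
  · rintro (i | i | i) (j | j | j) h
    · exact h1 i j h
    · exact h3 i j h
    · exact h.elim
    · exact (h3 j i (G.adj_symm h)).symm
    · exact h.elim
    · exact Or.inr (h6 i)
    · exact h.elim
    · exact Or.inl (h6 j)
    · exact h.elim
  · rintro (i | i | i) (k | k | k) (j | j | j) ha hb hne <;>
      first
      | exact ha.elim
      | exact hb.elim
      | exact h2 i k j ha hb (fun h => hne (congrArg _ h))
      | exact h4 i k j ha hb
      | exact (h4 j k i (G.adj_symm hb) (G.adj_symm ha)).symm
      | exact fun h => hne (congrArg (fun x => Sum.inr (Sum.inl x)) (h5 h))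
      | (intro h; have := h6 i; simp only [lab] at h; omega)
      | (intro h; have := h6 j; simp only [lab] at h; omega)
      | (intro h; have := h7 i; simp only [lab] at h; omega)
      | (intro h; have := h7 j; simp only [lab] at h; omega)
      | exact absurd rfl hne

/-- one Mycielski step -/
theorem step [Finite V] (G : SimpleGraph V) (f : V → ℕ) (hf : Good G f) (L : ℕ)
    (hL : ∀ v, f v ≤ L) :
    ∃ F, Good (myc G) F ∧ ∀ v, F v ≤ L + (Nat.card V + 1) := by
  classical
  have := Fintype.ofFinite V
  rcases isEmpty_or_nonempty V with hV | hV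
  · refine ⟨fun _ => 0, ⟨?_, ?_⟩, fun _ => Nat.zero_le _⟩
    · rintro (i | i | i) (j | j | j) h
      · exact isEmptyElim i
      · exact isEmptyElim i
      · exact isEmptyElim i
      · exact isEmptyElim i
      · exact isEmptyElim i
      · exact isEmptyElim i
      · exact isEmptyElim j
      · exact isEmptyElim j
      · exact h.elim
    · rintro (i | i | i) (k | k | k) (j | j | j) ha hb hne <;>
        first
        | exact isEmptyElim i
        | exact isEmptyElim j
        | exact isEmptyElim k
        | exact absurd rfl hne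
  -- a bijection onto `0, ..., n - 1` mapping a vertex of label `L`, if there is one, to `0`
  obtain ⟨ρ, hinj, hlt, hρ⟩ : ∃ ρ : V → ℕ, Function.Injective ρ ∧ (∀ v, ρ v < Nat.card V) ∧
      ∀ v, f v = L → ∀ x, ρ x = 0 → f x = L := by
    let e := Fintype.equivFin V
    have h0 : 0 < Fintype.card V := Fintype.card_pos
    by_cases hex : ∃ k, f k = L
    · obtain ⟨k, hk⟩ := hex
      let e' := e.trans (Equiv.swap (e k) ⟨0, h0⟩)
      refine ⟨fun v => (e' v : ℕ), fun x y h => e'.injective (Fin.ext h), fun v => ?_,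
        fun _ _ x hx => ?_⟩
      · rw [Nat.card_eq_fintype_card]; exact (e' v).isLt
      · have h1 : e' x = ⟨0, h0⟩ := Fin.ext hx
        have h2 : e' k = ⟨0, h0⟩ := by
          simp [e']
        rw [← h2] at h1
        rw [e'.injective h1, hk]
    · refine ⟨fun v => (e v : ℕ), fun x y h => e.injective (Fin.ext h), fun v => ?_,
        fun v hv => absurd ⟨v, hv⟩ hex⟩
      rw [Nat.card_eq_fintype_card]; exact (e v).isLt
  refine ⟨lab (fun i => f i + 1) (fun i => L + 2 + ρ i), good_myc G _ _ ?_ ?_ ?_ ?_ ?_ ?_ ?_, ?_⟩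
  · intro i j h
    have := hf.1 i j h
    omega
  · intro i k j h h' hne h''
    have := hf.2 i k j h h' hne
    omega
  · intro i j h
    left
    have h1 := hL i
    by_cases h2 : f i = L
    · have h3 : ρ j ≠ 0 := by
        intro h4
        have h5 := hρ i h2 j h4
        have := hf.1 i j h
        omega
      omega
    · omega
  · intro i k j _ _
    have := hL i
    omega
  · intro i j h
    exact hinj (by dsimp only at h; omega)
  · intro j
    omega
  · intro i
    omega
  · rintro (i | i | i)
    · have := hL i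
      simp only [lab]
      omega
    · have := hlt i
      simp only [lab]
      omega
    · simp [lab]

end good

section cyclic

variable {S : Type*} (R : S → S → Prop) [DecidableRel R]

/-- 1 if the pair is in conflict -/
def r (x y : S) : ℕ := if R x y then 1 else 0

/-- successor in the cyclic order of `0, ..., N - 1` -/
def nx (N i : ℕ) : ℕ := if i + 1 < N then i + 1 else 0

/-- number of conflicts in the cyclic arrangement `c` of `N` elements -/
def cost (N : ℕ) (c : ℕ → S) : ℕ := ∑ i ∈ range N, r R (c i) (c (nx N i))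

theorem cost_rot (N a : ℕ) (ha : a < N) (c : ℕ → S) :
    cost R N (fun i => c (if i + a < N then i + a else i + a - N)) = cost R N c := by
  unfold cost
  apply Finset.sum_nbij' (fun i => if i + a < N then i + a else i + a - N)
    (fun i => if a ≤ i then i - a else i + N - a)
  · intro i hi
    simp only [mem_range] at hi ⊢
    split_ifs <;> omega
  · intro i hi
    simp only [mem_range] at hi ⊢
    split_ifs <;> omega
  · intro i hi
    simp only [mem_range] at hi
    split_ifs <;> omega
  · intro i hi
    simp only [mem_range] at hi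
    split_ifs <;> omega
  · intro i hi
    simp only [mem_range] at hi
    have : (if nx N i + a < N then nx N i + a else nx N i + a - N) =
        nx N (if i + a < N then i + a else i + a - N) := by
      unfold nx
      split_ifs <;> omega
    simp only [this]

theorem cost_eq (j k : ℕ) (c : ℕ → S) : cost R (j + 1 + k + 1) c =
    ∑ i ∈ range j, r R (c i) (c (i + 1)) + r R (c j) (c (j + 1)) +
      ∑ i ∈ range k, r R (c (j + 1 + i)) (c (j + 1 + i + 1)) + r R (c (j + 1 + k)) (c 0) := by
  unfold cost
  rw [sum_range_succ, sum_range_add, sum_range_succ]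
  have h1 : ∀ i, i < j + 1 + k → nx (j + 1 + k + 1) i = i + 1 := by
    intro i hi; unfold nx; rw [if_pos (by omega)]
  have h2 : nx (j + 1 + k + 1) (j + 1 + k) = 0 := by unfold nx; rw [if_neg (by omega)]
  rw [h2, h1 j (by omega)]
  congr 1
  congr 1
  · congr 1
    apply sum_congr rfl
    intro i hi
    rw [mem_range] at hi
    rw [h1 i (by omega)]
  · apply sum_congr rfl
    intro i hi
    rw [mem_range] at hi
    rw [h1 _ (by omega)]

theorem exists_cyclic [Fintype S] [DecidableEq S] (hsymm : ∀ x y, R x y → R y x) (D : ℕ)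
    (hD : ∀ x, (univ.filter fun y => R x y).card ≤ D) (N : ℕ) (hcard : Fintype.card S = N)
    (hN : 2 * D + 2 ≤ N) :
    ∃ c : ℕ → S, (∀ i < N, ∀ j < N, c i = c j → i = j) ∧ ∀ i < N, ¬ R (c i) (c (nx N i)) := by
  classical
  have hne : ∃ m, ∃ c : ℕ → S, (∀ i < N, ∀ j < N, c i = c j → i = j) ∧ cost R N c = m := by
    let e : Fin N ≃ S := (Fintype.equivFinOfCardEq hcard).symm
    refine ⟨_, fun i => e ⟨i % N, Nat.mod_lt _ (by omega)⟩, ?_, rfl⟩
    intro i hi j hj h
    have := e.injective h
    rw [Fin.mk.injEq, Nat.mod_eq_of_lt hi, Nat.mod_eq_of_lt hj] at this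
    exact this
  obtain ⟨c, hinj, hc⟩ := Nat.find_spec hne
  have hmin := fun m (hm : m < Nat.find hne) => Nat.find_min hne hm
  refine ⟨c, hinj, ?_⟩
  by_contra hcon
  push Not at hcon
  obtain ⟨a, haN, hRa⟩ := hcon
  -- rotate
  obtain ⟨c, hinj, hc, hR⟩ : ∃ c : ℕ → S, (∀ i < N, ∀ j < N, c i = c j → i = j) ∧
      cost R N c = Nat.find hne ∧ R (c (N - 1)) (c 0) := by
    by_cases h1 : a + 1 < N
    · refine ⟨fun i => c (if i + (a + 1) < N then i + (a + 1) else i + (a + 1) - N), ?_,
        by rw [cost_rot R N (a + 1) h1, hc], ?_⟩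
      · intro i hi j hj h
        have := hinj _ (by split_ifs <;> omega) _ (by split_ifs <;> omega) h
        split_ifs at this <;> omega
      · have h2 : (if N - 1 + (a + 1) < N then N - 1 + (a + 1) else N - 1 + (a + 1) - N) = a := by
          split_ifs <;> omega
        have h3 : (if 0 + (a + 1) < N then 0 + (a + 1) else 0 + (a + 1) - N) = nx N a := by
          unfold nx; split_ifs <;> omega
        simp only [h2, h3]
        exact hRa
    · have h2 : a = N - 1 := by omega
      have h3 : nx N a = 0 := by unfold nx; rw [if_neg h1]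
      rw [h3, h2] at hRa
      exact ⟨c, hinj, hc, hRa⟩
  -- count
  have hA : ((Icc 1 (N - 3)).filter fun j => R (c (N - 1)) (c j)).card + 1 ≤ D := by
    have h1 : (insert 0 ((Icc 1 (N - 3)).filter fun j => R (c (N - 1)) (c j))).card ≤ D := by
      refine le_trans ?_ (hD (c (N - 1)))
      apply card_le_card_of_injOn c
      · intro j hj
        simp only [coe_insert, coe_filter, Set.mem_insert_iff, mem_Icc, Set.mem_ofPred_eq] at hj
        simp only [coe_filter, mem_univ, true_and, Set.mem_ofPred_eq]
        rcases hj with rfl | hj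
        · exact hR
        · exact hj.2
      · intro i hi j hj h
        simp only [coe_insert, coe_filter, Set.mem_insert_iff, mem_Icc, Set.mem_ofPred_eq] at hi hj
        exact hinj i (by omega) j (by omega) h
    rwa [card_insert_of_notMem (by simp)] at h1
  have hB : ((Icc 1 (N - 3)).filter fun j => R (c 0) (c (j + 1))).card + 1 ≤ D := by
    have h1 : (insert (N - 2) ((Icc 1 (N - 3)).filter fun j => R (c 0) (c (j + 1)))).card ≤ D := by
      refine le_trans ?_ (hD (c 0))
      apply card_le_card_of_injOn (fun j => c (j + 1))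
      · intro j hj
        simp only [coe_insert, coe_filter, Set.mem_insert_iff, mem_Icc, Set.mem_ofPred_eq] at hj
        simp only [coe_filter, mem_univ, true_and, Set.mem_ofPred_eq]
        rcases hj with rfl | hj
        · have : N - 2 + 1 = N - 1 := by omega
          rw [this]
          exact hsymm _ _ hR
        · exact hj.2
      · intro i hi j hj h
        simp only [coe_insert, coe_filter, Set.mem_insert_iff, mem_Icc, Set.mem_ofPred_eq] at hi hj
        have := hinj (i + 1) (by omega) (j + 1) (by omega) h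
        omega
    rwa [card_insert_of_notMem (by simp; omega)] at h1
  obtain ⟨j, hj, hj1, hj2⟩ : ∃ j ∈ Icc 1 (N - 3), ¬ R (c (N - 1)) (c j) ∧
      ¬ R (c 0) (c (j + 1)) := by
    by_contra hcon
    push Not at hcon
    have h1 : Icc 1 (N - 3) ⊆ ((Icc 1 (N - 3)).filter fun j => R (c (N - 1)) (c j)) ∪
        ((Icc 1 (N - 3)).filter fun j => R (c 0) (c (j + 1))) := by
      intro j hj
      rw [mem_union, mem_filter, mem_filter]
      by_cases h : R (c (N - 1)) (c j)
      · exact Or.inl ⟨hj, h⟩
      · exact Or.inr ⟨hj, hcon j hj h⟩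
    have h2 := (card_le_card h1).trans (card_union_le _ _)
    rw [Nat.card_Icc] at h2
    omega
  rw [mem_Icc] at hj
  obtain ⟨k, hk⟩ : ∃ k, N = j + 1 + k + 1 := ⟨N - j - 2, by omega⟩
  -- reverse the first `j + 1` elements
  let c' : ℕ → S := fun i => if i ≤ j then c (j - i) else c i
  have hinj' : ∀ i < N, ∀ l < N, c' i = c' l → i = l := by
    intro i hi l hl h
    simp only [c'] at h
    split_ifs at h with h1 h2 h2
    · have := hinj _ (by omega) _ (by omega) h; omega
    · have := hinj _ (by omega) _ (by omega) h; omega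
    · have := hinj _ (by omega) _ (by omega) h; omega
    · exact hinj _ hi _ hl h
  have hcost : cost R N c' < cost R N c := by
    rw [hk, cost_eq, cost_eq]
    have e1 : ∑ i ∈ range j, r R (c' i) (c' (i + 1)) = ∑ i ∈ range j, r R (c i) (c (i + 1)) := by
      rw [← Finset.sum_range_reflect (fun i => r R (c i) (c (i + 1)))]
      apply sum_congr rfl
      intro i hi
      rw [mem_range] at hi
      simp only [c']
      rw [if_pos (by omega), if_pos (by omega)]
      have h1 : j - 1 - i + 1 = j - i := by omega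
      have h2 : j - (i + 1) = j - 1 - i := by omega
      rw [h1, h2]
      unfold r
      by_cases h : R (c (j - i)) (c (j - 1 - i))
      · rw [if_pos h, if_pos (hsymm _ _ h)]
      · rw [if_neg h, if_neg (fun h' => h (hsymm _ _ h'))]
    have e2 : ∑ i ∈ range k, r R (c' (j + 1 + i)) (c' (j + 1 + i + 1)) =
        ∑ i ∈ range k, r R (c (j + 1 + i)) (c (j + 1 + i + 1)) := by
      apply sum_congr rfl
      intro i hi
      simp only [c']
      rw [if_neg (by omega), if_neg (by omega)]
    have e3 : r R (c' j) (c' (j + 1)) = 0 := by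
      simp only [c']
      rw [if_pos le_rfl, if_neg (by omega), Nat.sub_self]
      unfold r
      rw [if_neg hj2]
    have e4 : r R (c' (j + 1 + k)) (c' 0) = 0 := by
      simp only [c']
      rw [if_neg (by omega), if_pos (by omega), Nat.sub_zero]
      unfold r
      have : j + 1 + k = N - 1 := by omega
      rw [this, if_neg hj1]
    have e5 : r R (c (j + 1 + k)) (c 0) = 1 := by
      unfold r
      have : j + 1 + k = N - 1 := by omega
      rw [this, if_pos hR]
    rw [e1, e2, e3, e4, e5]
    omega
  exact hmin _ (by rw [← hc]; exact hcost) ⟨c', hinj', rfl⟩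

end cyclic

/-! ### Graphs of maximum degree two -/

section degtwo

variable {V : Type}


/-- good labeling of the subgraph induced on `S` -/
def GoodOn (G : SimpleGraph V) (S : Finset V) (f : V → ℕ) : Prop :=
  (∀ x ∈ S, ∀ y ∈ S, G.Adj x y → f x + 2 ≤ f y ∨ f y + 2 ≤ f x) ∧
    ∀ x ∈ S, ∀ z ∈ S, ∀ y ∈ S, G.Adj x z → G.Adj z y → x ≠ y → f x ≠ f y

/-- labels along a cycle of length `m` -/
def pat (m i : ℕ) : ℕ :=
  if m % 3 = 1 ∧ i + 3 = m then 3 else if m % 3 = 1 ∧ i + 2 = m then 1 else
  if m % 3 = 1 ∧ i + 1 = m then 4 else if m % 3 = 2 ∧ i + 2 = m then 1 else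
  if m % 3 = 2 ∧ i + 1 = m then 3 else 2 * (i % 3)

theorem pat_le (m i : ℕ) : pat m i ≤ 4 := by
  unfold pat
  split_ifs <;> omega

/-- cyclic successor -/
def nxt (m i : ℕ) : ℕ := if i + 1 < m then i + 1 else 0

theorem nxt_lt {m i : ℕ} (hm : 3 ≤ m) (hi : i < m) : nxt m i < m := by
  unfold nxt; split_ifs <;> omega

theorem pat_adj {m i : ℕ} (hm : 3 ≤ m) (hi : i < m) :
    pat m i + 2 ≤ pat m (nxt m i) ∨ pat m (nxt m i) + 2 ≤ pat m i := by
  by_cases h1 : i + 1 < m
  · have : nxt m i = i + 1 := by unfold nxt; rw [if_pos h1]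
    rw [this]; unfold pat; split_ifs <;> omega
  · have : nxt m i = 0 := by unfold nxt; rw [if_neg h1]
    rw [this]; unfold pat; split_ifs <;> omega

theorem pat_two {m i : ℕ} (hm : 3 ≤ m) (hi : i < m) :
    pat m i ≠ pat m (nxt m (nxt m i)) := by
  by_cases h1 : i + 1 < m
  · have e1 : nxt m i = i + 1 := by unfold nxt; rw [if_pos h1]
    by_cases h2 : i + 1 + 1 < m
    · have : nxt m (nxt m i) = i + 1 + 1 := by rw [e1]; unfold nxt; rw [if_pos h2]
      rw [this]; unfold pat; split_ifs <;> omega
    · have : nxt m (nxt m i) = 0 := by rw [e1]; unfold nxt; rw [if_neg h2]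
      rw [this]; unfold pat; split_ifs <;> omega
  · have e1 : nxt m i = 0 := by unfold nxt; rw [if_neg h1]
    have : nxt m (nxt m i) = 1 := by rw [e1]; unfold nxt; rw [if_pos (by omega)]
    rw [this]; unfold pat; split_ifs <;> omega

/-- In a graph in which all vertices of `S` have exactly two neighbours in `S` there is a cycle
through any vertex of `S`; it is a union of components. -/
theorem exists_cyc (G : SimpleGraph V) (S : Finset V) [DecidableEq V] [DecidableRel G.Adj]
    (h2 : ∀ v ∈ S, (S.filter fun x => G.Adj v x).card = 2) (v0 : V) (hv0 : v0 ∈ S) :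
    ∃ (m : ℕ) (x : ℕ → V), 3 ≤ m ∧ (∀ i, x i ∈ S) ∧ (∀ i < m, ∀ j < m, x i = x j → i = j) ∧
      (∀ i < m, ∀ y ∈ S, G.Adj (x i) y → y = x (nxt m i) ∨ ∃ j < m, y = x j ∧ nxt m j = i) ∧
      x 0 = v0 := by
  classical
  -- the other neighbour
  have hoth : ∀ v ∈ S, ∀ u ∈ S, G.Adj v u → ∃ w ∈ S, G.Adj v w ∧ w ≠ u ∧
      ∀ y ∈ S, G.Adj v y → y = u ∨ y = w := by
    intro v hv u hu huv
    obtain ⟨a, b, hab, hs⟩ := card_eq_two.1 (h2 v hv)
    have hmem : ∀ y, (y ∈ S ∧ G.Adj v y) ↔ (y = a ∨ y = b) := by
      intro y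
      have : y ∈ S.filter (fun x => G.Adj v x) ↔ y ∈ ({a, b} : Finset V) := by rw [hs]
      simpa using this
    rcases (hmem u).1 ⟨hu, huv⟩ with rfl | rfl
    · exact ⟨b, ((hmem b).2 (Or.inr rfl)).1, ((hmem b).2 (Or.inr rfl)).2, hab.symm,
        fun y hy hvy => (hmem y).1 ⟨hy, hvy⟩⟩
    · exact ⟨a, ((hmem a).2 (Or.inl rfl)).1, ((hmem a).2 (Or.inl rfl)).2, hab,
        fun y hy hvy => ((hmem y).1 ⟨hy, hvy⟩).symm⟩
  choose! oth hoS hoA hone hoall using hoth
  obtain ⟨v1, hv1S, hv1⟩ : ∃ v1 ∈ S, G.Adj v0 v1 := by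
    have : (S.filter fun x => G.Adj v0 x).Nonempty := by
      rw [← card_pos, h2 v0 hv0]; norm_num
    obtain ⟨y, hy⟩ := this
    rw [mem_filter] at hy
    exact ⟨y, hy⟩
  -- the walk
  let st : ℕ → V × V := fun k => Nat.rec (v0, v1) (fun _ p => (p.2, oth p.2 p.1)) k
  have hst : ∀ k, (st k).1 ∈ S ∧ (st k).2 ∈ S ∧ G.Adj (st k).1 (st k).2 := by
    intro k
    induction k with
    | zero => exact ⟨hv0, hv1S, hv1⟩
    | succ k ih =>
      exact ⟨ih.2.1, hoS _ ih.2.1 _ ih.1 (G.adj_symm ih.2.2), hoA _ ih.2.1 _ ih.1 (G.adj_symm ih.2.2)⟩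
  let x : ℕ → V := fun k => (st k).1
  have hx1 : ∀ k, x (k + 1) = (st k).2 := fun k => rfl
  have hx2 : ∀ k, x (k + 2) = oth (x (k + 1)) (x k) := fun k => rfl
  have hxS : ∀ k, x k ∈ S := fun k => (hst k).1
  have hxA : ∀ k, G.Adj (x k) (x (k + 1)) := fun k => (hst k).2.2
  have hxne : ∀ k, x (k + 2) ≠ x k := fun k => hone _ (hxS (k + 1)) _ (hxS k) (G.adj_symm (hxA k))
  have hxall : ∀ k, ∀ y ∈ S, G.Adj (x (k + 1)) y → y = x k ∨ y = x (k + 2) := fun k =>
    hoall _ (hxS (k + 1)) _ (hxS k) (G.adj_symm (hxA k))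
  -- first repetition
  have hrep : ∃ j, ∃ i < j, x i = x j := by
    by_contra hcon
    push Not at hcon
    have hinj : Function.Injective x := by
      intro i j h
      rcases lt_trichotomy i j with h' | h' | h'
      · exact absurd h (hcon j i h')
      · exact h'
      · exact absurd h.symm (hcon i j h')
    have : (Set.range x).Finite := (S.finite_toSet).subset (by rintro _ ⟨k, rfl⟩; exact hxS k)
    exact Set.infinite_range_of_injective hinj this
  obtain ⟨i, hij, hxij⟩ := Nat.find_spec hrep
  have hmin : ∀ a b, a < Nat.find hrep → b < Nat.find hrep → x a = x b → a = b := by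
    intro a b ha hb h
    rcases lt_trichotomy a b with h' | h' | h'
    · exact absurd ⟨a, h', h⟩ (Nat.find_min hrep hb)
    · exact h'
    · exact absurd ⟨b, h', h.symm⟩ (Nat.find_min hrep ha)
  generalize Nat.find hrep = m at hij hxij hmin
  have hm3 : i + 3 ≤ m := by
    by_contra hcon
    have : m = i + 1 ∨ m = i + 2 := by omega
    rcases this with rfl | rfl
    · have := hxA i
      rw [← hxij] at this
      exact G.irrefl this
    · exact hxne i hxij.symm
  have hprev : G.Adj (x i) (x (m - 1)) := by
    have := hxA (m - 1)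
    rw [show m - 1 + 1 = m by omega, ← hxij] at this
    exact G.adj_symm this
  have hi0 : i = 0 := by
    by_contra hcon
    obtain ⟨k, rfl⟩ : ∃ k, i = k + 1 := ⟨i - 1, by omega⟩
    rcases hxall k _ (hxS _) hprev with h | h
    · have := hmin (m - 1) k (by omega) (by omega) h; omega
    · have := hmin (m - 1) (k + 2) (by omega) (by omega) h; omega
  subst hi0
  refine ⟨m, x, by omega, hxS, fun i hi j hj h => hmin i j hi hj h, ?_, rfl⟩
  intro i hi y hy hadj
  rcases Nat.eq_zero_or_pos i with rfl | hpos
  · -- neighbours of `x 0`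
    have hn : nxt m 0 = 1 := by unfold nxt; rw [if_pos (by omega)]
    rw [hn]
    have hall := hoall (x 0) (hxS 0) (x 1) (hxS 1) (hxA 0)
    rcases hall y hy hadj with h | h
    · exact Or.inl h
    · right
      rcases hall _ (hxS _) hprev with h' | h'
      · have := hmin (m - 1) 1 (by omega) (by omega) h'; omega
      · exact ⟨m - 1, by omega, by rw [h, h'], by unfold nxt; rw [if_neg (by omega)]⟩
  · obtain ⟨k, rfl⟩ : ∃ k, i = k + 1 := ⟨i - 1, by omega⟩
    rcases hxall k y hy hadj with h | h
    · exact Or.inr ⟨k, by omega, h, by unfold nxt; rw [if_pos (by omega)]⟩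
    · left
      unfold nxt
      split_ifs with h3
      · exact h
      · have : k + 2 = m := by omega
        rw [h, this, hxij]

theorem goodOn_le_four [DecidableEq V] (G : SimpleGraph V) [DecidableRel G.Adj] :
    ∀ (k : ℕ) (S : Finset V), S.card = k → (∀ v ∈ S, (S.filter fun x => G.Adj v x).card ≤ 2) →
      ∃ f, GoodOn G S f ∧ ∀ v, f v ≤ 4 := by
  intro k
  induction k using Nat.strong_induction_on with
  | _ k ih =>
  intro S hS hdeg
  by_cases h1 : ∃ v ∈ S, (S.filter fun x => G.Adj v x).card ≤ 1
  · -- remove a vertex of degree at most one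
    obtain ⟨v, hv, hv1⟩ := h1
    obtain ⟨f, hf, hf4⟩ := ih (S.erase v).card (by
      rw [← hS]; exact card_lt_card (erase_ssubset hv)) (S.erase v) rfl (by
      intro w hw
      refine le_trans (card_le_card ?_) (hdeg w (mem_of_mem_erase hw))
      exact filter_subset_filter _ (erase_subset _ _))
    -- the neighbour of `v`
    have hu : ∃ u, ∀ y ∈ S, G.Adj v y → y = u := by
      rcases Nat.lt_or_ge 0 (S.filter fun x => G.Adj v x).card with h | h
      · obtain ⟨u, hu⟩ := card_eq_one.1 (le_antisymm hv1 h)
        refine ⟨u, fun y hy hvy => ?_⟩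
        have : y ∈ S.filter fun x => G.Adj v x := mem_filter.2 ⟨hy, hvy⟩
        rw [hu, mem_singleton] at this
        exact this
      · refine ⟨v, fun y hy hvy => ?_⟩
        have : y ∈ S.filter fun x => G.Adj v x := mem_filter.2 ⟨hy, hvy⟩
        rw [card_eq_zero.1 (Nat.le_zero.1 h)] at this
        exact absurd this (notMem_empty _)
    obtain ⟨u, hu⟩ := hu
    by_cases huv : u ∈ S ∧ G.Adj v u
    swap
    · -- isolated
      refine ⟨f, ⟨?_, ?_⟩, hf4⟩
      · intro x hx y hy hxy
        have hxv : x ≠ v := by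
          rintro rfl
          have := hu y hy hxy
          subst this
          exact huv ⟨hy, hxy⟩
        have hyv : y ≠ v := by
          rintro rfl
          have := hu x hx (G.adj_symm hxy)
          subst this
          exact huv ⟨hx, G.adj_symm hxy⟩
        exact hf.1 x (mem_erase.2 ⟨hxv, hx⟩) y (mem_erase.2 ⟨hyv, hy⟩) hxy
      · intro x hx z hz y hy hxz hzy hne
        have hnv : ∀ a ∈ S, ∀ b ∈ S, G.Adj a b → a ≠ v := by
          rintro a ha b hb hab rfl
          have := hu b hb hab
          subst this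
          exact huv ⟨hb, hab⟩
        exact hf.2 x (mem_erase.2 ⟨hnv x hx z hz hxz, hx⟩)
          z (mem_erase.2 ⟨hnv z hz y hy hzy, hz⟩)
          y (mem_erase.2 ⟨hnv y hy z hz (G.adj_symm hzy), hy⟩) hxz hzy hne
    · obtain ⟨huS, hvu⟩ := huv
      have huv' : u ≠ v := fun h => G.irrefl (h ▸ hvu)
      -- the other neighbour of `u`
      obtain ⟨w, hw⟩ : ∃ w, ∀ y ∈ S, G.Adj u y → y = v ∨ y = w := by
        have h3 : ((S.filter fun x => G.Adj u x).erase v).card ≤ 1 := by
          rw [card_erase_of_mem (mem_filter.2 ⟨hv, G.adj_symm hvu⟩)]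
          exact Nat.sub_le_sub_right (hdeg u huS) 1
        rcases Nat.lt_or_ge 0 ((S.filter fun x => G.Adj u x).erase v).card with h | h
        · obtain ⟨w, hw⟩ := card_eq_one.1 (le_antisymm h3 h)
          refine ⟨w, fun y hy huy => ?_⟩
          by_cases hyv : y = v
          · exact Or.inl hyv
          · have : y ∈ (S.filter fun x => G.Adj u x).erase v :=
              mem_erase.2 ⟨hyv, mem_filter.2 ⟨hy, huy⟩⟩
            rw [hw, mem_singleton] at this
            exact Or.inr this
        · refine ⟨v, fun y hy huy => ?_⟩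
          by_cases hyv : y = v
          · exact Or.inl hyv
          · have : y ∈ (S.filter fun x => G.Adj u x).erase v :=
              mem_erase.2 ⟨hyv, mem_filter.2 ⟨hy, huy⟩⟩
            rw [card_eq_zero.1 (Nat.le_zero.1 h)] at this
            exact absurd this (notMem_empty _)
      -- the label of `v`
      obtain ⟨l, hl4, hlu, hlw⟩ : ∃ l ≤ 4, (f u + 2 ≤ l ∨ l + 2 ≤ f u) ∧ l ≠ f w := by
        have h4 := hf4 u
        by_contra hcon
        push Not at hcon
        have c0 := hcon 0 (by omega)
        have c1 := hcon 1 (by omega)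
        have c3 := hcon 3 (by omega)
        have c4 := hcon 4 (by omega)
        omega
      refine ⟨fun x => if x = v then l else f x, ⟨?_, ?_⟩, ?_⟩
      · intro x hx y hy hxy
        dsimp only
        by_cases hxv : x = v
        · subst hxv
          have := hu y hy hxy
          subst this
          rw [if_pos rfl, if_neg huv']
          omega
        · by_cases hyv : y = v
          · subst hyv
            have := hu x hx (G.adj_symm hxy)
            subst this
            rw [if_pos rfl, if_neg huv']
            omega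
          · rw [if_neg hxv, if_neg hyv]
            exact hf.1 x (mem_erase.2 ⟨hxv, hx⟩) y (mem_erase.2 ⟨hyv, hy⟩) hxy
      · intro x hx z hz y hy hxz hzy hne
        dsimp only
        by_cases hzv : z = v
        · subst hzv
          exact absurd ((hu x hx (G.adj_symm hxz)).trans (hu y hy hzy).symm) hne
        by_cases hxv : x = v
        · subst hxv
          have hzu := hu z hz hxz
          subst hzu
          rcases hw y hy hzy with h | h
          · exact absurd h.symm hne
          · subst h
            rw [if_pos rfl, if_neg hne.symm]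
            exact hlw
        by_cases hyv : y = v
        · subst hyv
          have hzu := hu z hz (G.adj_symm hzy)
          subst hzu
          rcases hw x hx (G.adj_symm hxz) with h | h
          · exact absurd h hne
          · subst h
            rw [if_pos rfl, if_neg hne]
            exact hlw.symm
        rw [if_neg hxv, if_neg hyv]
        exact hf.2 x (mem_erase.2 ⟨hxv, hx⟩) z (mem_erase.2 ⟨hzv, hz⟩)
          y (mem_erase.2 ⟨hyv, hy⟩) hxz hzy hne
      · intro x
        dsimp only
        split_ifs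
        · exact hl4
        · exact hf4 x
  · -- all degrees are two
    push Not at h1
    have h2 : ∀ v ∈ S, (S.filter fun x => G.Adj v x).card = 2 := fun v hv =>
      le_antisymm (hdeg v hv) (h1 v hv)
    rcases S.eq_empty_or_nonempty with rfl | ⟨v0, hv0⟩
    · exact ⟨fun _ => 0, ⟨fun x hx => absurd hx (notMem_empty _),
        fun x hx => absurd hx (notMem_empty _)⟩, fun _ => Nat.zero_le _⟩
    obtain ⟨m, x, hm3, hxS, hinj, hnb, hx0⟩ := exists_cyc G S h2 v0 hv0
    let C : Finset V := (range m).image x
    have hC : ∀ y, y ∈ C ↔ ∃ i < m, x i = y := by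
      intro y; simp [C]
    have hv0C : v0 ∈ C := (hC v0).2 ⟨0, by omega, hx0⟩
    have hclosed : ∀ a ∈ C, ∀ b ∈ S, G.Adj a b → b ∈ C := by
      intro a ha b hb hab
      obtain ⟨i, hi, rfl⟩ := (hC a).1 ha
      rcases hnb i hi b hb hab with h | ⟨j, hj, h, _⟩
      · exact (hC b).2 ⟨_, nxt_lt hm3 hi, h.symm⟩
      · exact (hC b).2 ⟨j, hj, h.symm⟩
    obtain ⟨f, hf, hf4⟩ := ih (S \ C).card (by
      rw [← hS]
      exact card_lt_card (Finset.ssubset_iff_subset_ne.2 ⟨sdiff_subset, fun h => by
        rw [← h] at hv0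
        exact (mem_sdiff.1 hv0).2 hv0C⟩)) (S \ C) rfl (by
      intro w hw
      refine le_trans (card_le_card ?_) (hdeg w (mem_sdiff.1 hw).1)
      exact filter_subset_filter _ sdiff_subset)
    -- the labeling on the cycle
    have hidx : ∀ y ∈ C, ∃ i < m, x i = y := fun y hy => (hC y).1 hy
    choose! idx hidx1 hidx2 using hidx
    have hidxx : ∀ i < m, idx (x i) = i := fun i hi =>
      hinj _ (hidx1 _ ((hC _).2 ⟨i, hi, rfl⟩)) _ hi (hidx2 _ ((hC _).2 ⟨i, hi, rfl⟩))
    refine ⟨fun y => if y ∈ C then pat m (idx y) else f y, ⟨?_, ?_⟩, ?_⟩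
    · intro a ha b hb hab
      dsimp only
      by_cases haC : a ∈ C
      · have hbC := hclosed a haC b hb hab
        rw [if_pos haC, if_pos hbC]
        obtain ⟨i, hi, rfl⟩ := (hC a).1 haC
        rcases hnb i hi b hb hab with h | ⟨j, hj, h, h'⟩
        · rw [h, hidxx i hi, hidxx _ (nxt_lt hm3 hi)]
          exact pat_adj hm3 hi
        · rw [h, hidxx i hi, hidxx j hj, ← h']
          exact (pat_adj hm3 hj).symm
      · have hbC : b ∉ C := fun h => haC (hclosed b h a ha (G.adj_symm hab))
        rw [if_neg haC, if_neg hbC]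
        exact hf.1 a (mem_sdiff.2 ⟨ha, haC⟩) b (mem_sdiff.2 ⟨hb, hbC⟩) hab
    · intro a ha z hz b hb haz hzb hne
      dsimp only
      by_cases hzC : z ∈ C
      · have haC := hclosed z hzC a ha (G.adj_symm haz)
        have hbC := hclosed z hzC b hb hzb
        rw [if_pos haC, if_pos hbC]
        obtain ⟨i, hi, rfl⟩ := (hC z).1 hzC
        rcases hnb i hi a ha (G.adj_symm haz) with h | ⟨j, hj, h, h'⟩
        · rcases hnb i hi b hb hzb with h2 | ⟨j2, hj2, h2, h2'⟩
          · exact absurd (h.trans h2.symm) hne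
          · rw [h, h2, hidxx _ (nxt_lt hm3 hi), hidxx _ hj2, ← h2']
            exact (pat_two hm3 hj2).symm
        · rcases hnb i hi b hb hzb with h2 | ⟨j2, hj2, h2, h2'⟩
          · rw [h, h2, hidxx _ (nxt_lt hm3 hi), hidxx _ hj, ← h']
            exact pat_two hm3 hj
          · exfalso
            apply hne
            have : j = j2 := by
              have := h'.trans h2'.symm
              unfold nxt at this
              split_ifs at this <;> omega
            rw [h, h2, this]
      · have haC : a ∉ C := fun h => hzC (hclosed a h z hz haz)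
        have hbC : b ∉ C := fun h => hzC (hclosed b h z hz (G.adj_symm hzb))
        rw [if_neg haC, if_neg hbC]
        exact hf.2 a (mem_sdiff.2 ⟨ha, haC⟩) z (mem_sdiff.2 ⟨hz, hzC⟩) b
          (mem_sdiff.2 ⟨hb, hbC⟩) haz hzb hne
    · intro y
      dsimp only
      split_ifs
      · exact pat_le _ _
      · exact hf4 y

end degtwo

/-! ### Slots -/

section slots

variable {V : Type}

/-- adjacency of the vertices `u` and `u'` in the Mycielski graph -/
def MA (G : SimpleGraph V) : V ⊕ V → V ⊕ V → Prop
  | .inl i, .inl j => G.Adj i j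
  | .inl i, .inr j => G.Adj i j
  | .inr i, .inl j => G.Adj i j
  | .inr _, .inr _ => False

theorem MA_symm (G : SimpleGraph V) {a b : V ⊕ V} (h : MA G a b) : MA G b a := by
  rcases a with i | i <;> rcases b with j | j
  · exact G.adj_symm h
  · exact G.adj_symm h
  · exact G.adj_symm h
  · exact h

open Classical in
/-- the slot of a vertex: `u'_j` shares the slot of `u_{φ j}` for `j ∈ J` -/
noncomputable def slot (J : Finset V) (φ : V → V) : V ⊕ V → V ⊕ {j // j ∉ J}
  | .inl i => .inl i
  | .inr j => if h : j ∈ J then .inl (φ j) else .inr ⟨j, h⟩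

/-- conflicts of slots -/
def Conf (G : SimpleGraph V) (J : Finset V) (φ : V → V) (x y : V ⊕ {j // j ∉ J}) : Prop :=
  ∃ a b, slot J φ a = x ∧ slot J φ b = y ∧ MA G a b

theorem slot_inl (J : Finset V) (φ : V → V) (i : V) : slot J φ (.inl i) = .inl i := rfl

theorem slot_inr_mem {J : Finset V} (φ : V → V) {j : V} (h : j ∈ J) :
    slot J φ (.inr j) = .inl (φ j) := by
  unfold slot; simp only [h, dite_true]

theorem slot_inr_notMem {J : Finset V} (φ : V → V) {j : V} (h : j ∉ J) :
    slot J φ (.inr j) = .inr ⟨j, h⟩ := by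
  unfold slot; simp only [h, dite_false]

variable [Fintype V] (G : SimpleGraph V) [DecidableRel G.Adj]

open Classical in
theorem card_MA_inl (i : V) : (univ.filter fun b => MA G (.inl i) b).card ≤ 2 * G.maxDegree := by
  have h : (univ.filter fun b => MA G (.inl i) b) ⊆
      (G.neighborFinset i).disjSum (G.neighborFinset i) := by
    intro b hb
    rw [mem_filter] at hb
    rcases b with j | j
    · rw [inl_mem_disjSum, SimpleGraph.mem_neighborFinset]; exact hb.2
    · rw [inr_mem_disjSum, SimpleGraph.mem_neighborFinset]; exact hb.2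
  have h1 := card_le_card h
  rw [card_disjSum, SimpleGraph.card_neighborFinset_eq_degree] at h1
  have := G.degree_le_maxDegree i
  omega

open Classical in
theorem card_MA_inr (i : V) : (univ.filter fun b => MA G (.inr i) b).card ≤ G.maxDegree := by
  have h : (univ.filter fun b => MA G (.inr i) b) ⊆ (G.neighborFinset i).image Sum.inl := by
    intro b hb
    rw [mem_filter] at hb
    rcases b with j | j
    · rw [mem_image]; exact ⟨j, by rw [SimpleGraph.mem_neighborFinset]; exact hb.2, rfl⟩
    · exact hb.2.elim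
  have h1 := (card_le_card h).trans card_image_le
  rw [SimpleGraph.card_neighborFinset_eq_degree] at h1
  exact h1.trans (G.degree_le_maxDegree i)

open Classical in
theorem card_conf (J : Finset V) (φ : V → V) (hφ : ∀ i ∈ J, ∀ j ∈ J, φ i = φ j → i = j)
    (x : V ⊕ {j // j ∉ J}) :
    (univ.filter fun y => Conf G J φ x y).card ≤ 3 * G.maxDegree := by
  obtain ⟨i, j, hij⟩ : ∃ i j, ∀ a, slot J φ a = x → a = .inl i ∨ a = .inr j := by
    rcases x with i | ⟨j, hj⟩
    · by_cases hex : ∃ j ∈ J, φ j = i
      · obtain ⟨j, hj, hji⟩ := hex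
        refine ⟨i, j, ?_⟩
        rintro (a | a) ha
        · rw [slot_inl, Sum.inl.injEq] at ha
          rw [ha]; exact Or.inl rfl
        · right
          by_cases haJ : a ∈ J
          · rw [slot_inr_mem φ haJ, Sum.inl.injEq] at ha
            rw [hφ a haJ j hj (ha.trans hji.symm)]
          · rw [slot_inr_notMem φ haJ] at ha
            exact absurd ha (by simp)
      · refine ⟨i, i, ?_⟩
        rintro (a | a) ha
        · rw [slot_inl, Sum.inl.injEq] at ha
          rw [ha]; exact Or.inl rfl
        · exfalso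
          by_cases haJ : a ∈ J
          · rw [slot_inr_mem φ haJ, Sum.inl.injEq] at ha
            exact hex ⟨a, haJ, ha⟩
          · rw [slot_inr_notMem φ haJ] at ha
            exact absurd ha (by simp)
    · refine ⟨j, j, ?_⟩
      rintro (a | a) ha
      · rw [slot_inl] at ha
        exact absurd ha (by simp)
      · by_cases haJ : a ∈ J
        · rw [slot_inr_mem φ haJ] at ha
          exact absurd ha (by simp)
        · rw [slot_inr_notMem φ haJ, Sum.inr.injEq, Subtype.mk.injEq] at ha
          rw [ha]; exact Or.inr rfl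
  have h : (univ.filter fun y => Conf G J φ x y) ⊆
      ((univ.filter fun b => MA G (.inl i) b) ∪ (univ.filter fun b => MA G (.inr j) b)).image
        (slot J φ) := by
    intro y hy
    rw [mem_filter] at hy
    obtain ⟨-, a, b, ha, hb, hab⟩ := hy
    rw [mem_image]
    refine ⟨b, ?_, hb⟩
    rw [mem_union, mem_filter, mem_filter]
    rcases hij a ha with rfl | rfl
    · exact Or.inl ⟨mem_univ _, hab⟩
    · exact Or.inr ⟨mem_univ _, hab⟩
  have h1 := ((card_le_card h).trans card_image_le).trans (card_union_le _ _)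
  have h2 := card_MA_inl G i
  have h3 := card_MA_inr G j
  omega

open Classical in
theorem card_conf_empty (φ : V → V) (x : V ⊕ {j // j ∉ (∅ : Finset V)}) :
    (univ.filter fun y => Conf G ∅ φ x y).card ≤ 2 * G.maxDegree := by
  obtain ⟨a0, ha0⟩ : ∃ a0, ∀ a, slot ∅ φ a = x → a = a0 := by
    rcases x with i | ⟨j, hj⟩
    · refine ⟨.inl i, ?_⟩
      rintro (a | a) ha
      · rw [slot_inl, Sum.inl.injEq] at ha
        rw [ha]
      · rw [slot_inr_notMem φ (notMem_empty a)] at ha
        exact absurd ha (by simp)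
    · refine ⟨.inr j, ?_⟩
      rintro (a | a) ha
      · rw [slot_inl] at ha
        exact absurd ha (by simp)
      · rw [slot_inr_notMem φ (notMem_empty a), Sum.inr.injEq, Subtype.mk.injEq] at ha
        rw [ha]
  have h : (univ.filter fun y => Conf G ∅ φ x y) ⊆
      (univ.filter fun b => MA G a0 b).image (slot ∅ φ) := by
    intro y hy
    rw [mem_filter] at hy
    obtain ⟨-, a, b, ha, hb, hab⟩ := hy
    rw [mem_image]
    refine ⟨b, ?_, hb⟩
    rw [mem_filter]
    rw [ha0 a ha] at hab
    exact ⟨mem_univ _, hab⟩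
  have h1 := (card_le_card h).trans card_image_le
  rcases a0 with i | i
  · exact h1.trans (card_MA_inl G i)
  · have := card_MA_inr G i
    omega

omit [DecidableRel G.Adj] in
open Classical in
theorem slots (J : Finset V) (φ : V → V) (hφ : ∀ i ∈ J, ∀ j ∈ J, φ i = φ j → i = j)
    (hfar : ∀ j ∈ J, ¬ G.Adj (φ j) j ∧ ∀ k, G.Adj (φ j) k → ¬ G.Adj k j)
    (i0 : V) (hi0 : ∀ j ∈ J, φ j ≠ i0) (D : ℕ)
    (hD : ∀ x, (univ.filter fun y => Conf G J φ x y).card ≤ D)
    (hN : 2 * D + 2 ≤ 2 * Fintype.card V - J.card) :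
    ∃ F, Good (myc G) F ∧ ∀ v, F v ≤ 2 * Fintype.card V - J.card := by
  have hJ : J.card ≤ Fintype.card V := card_le_univ J
  have hcard : Fintype.card (V ⊕ {j // j ∉ J}) = 2 * Fintype.card V - J.card := by
    rw [Fintype.card_sum, Fintype.card_subtype_compl (fun j => j ∈ J), Fintype.card_coe]
    omega
  generalize hNdef : 2 * Fintype.card V - J.card = N at *
  have hsymm : ∀ x y, Conf G J φ x y → Conf G J φ y x := by
    rintro x y ⟨a, b, ha, hb, hab⟩
    exact ⟨b, a, hb, ha, MA_symm G hab⟩
  obtain ⟨c, hinj, hc⟩ := exists_cyclic (Conf G J φ) hsymm D hD N hcard hN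
  have hsurj : ∀ x, ∃ p, p < N ∧ c p = x := by
    intro x
    have h1 : (range N).image c = univ := by
      apply eq_univ_of_card
      rw [card_image_of_injOn, card_range, hcard]
      intro a ha b hb h
      rw [coe_range, Set.mem_Iio] at ha hb
      exact hinj a ha b hb h
    have h2 : x ∈ (range N).image c := by rw [h1]; exact mem_univ _
    obtain ⟨p, hp, hpx⟩ := mem_image.1 h2
    exact ⟨p, mem_range.1 hp, hpx⟩
  choose pos hpos hcpos using hsurj
  have hposinj : ∀ x y, pos x = pos y → x = y := by
    intro x y h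
    rw [← hcpos x, ← hcpos y, h]
  generalize hp0 : pos (.inl i0) = p0
  have hp0N : p0 < N := by rw [← hp0]; exact hpos _
  let l : V ⊕ {j // j ∉ J} → ℕ := fun x =>
    if p0 ≤ pos x then pos x - p0 + 1 else pos x + N - p0 + 1
  have hl : ∀ x, l x = if p0 ≤ pos x then pos x - p0 + 1 else pos x + N - p0 + 1 := fun x => rfl
  have hl1 : ∀ x, 1 ≤ l x := by
    intro x; rw [hl]; split_ifs <;> omega
  have hlN : ∀ x, l x ≤ N := by
    intro x; rw [hl]; have := hpos x; split_ifs <;> omega
  have hlinj : ∀ x y, l x = l y → x = y := by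
    intro x y h
    apply hposinj
    rw [hl, hl] at h
    have := hpos x
    have := hpos y
    split_ifs at h <;> omega
  have hl2 : ∀ x, x ≠ .inl i0 → 2 ≤ l x := by
    intro x hx
    have h1 : pos x ≠ p0 := fun h => hx (hposinj _ _ (h.trans hp0.symm))
    have := hpos x
    rw [hl]; split_ifs <;> omega
  have hsucc : ∀ x y, l y = l x + 1 → pos y = nx N (pos x) := by
    intro x y h
    rw [hl, hl] at h
    have := hpos x
    have := hpos y
    unfold nx
    split_ifs at h <;> split_ifs <;> omega
  have hself : ∀ x, ¬ Conf G J φ x x := by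
    rintro x ⟨a, b, ha, hb, hab⟩
    have hs := ha.trans hb.symm
    rcases a with i | i <;> rcases b with j | j
    · rw [slot_inl, slot_inl, Sum.inl.injEq] at hs
      subst hs
      exact G.irrefl hab
    · by_cases hj : j ∈ J
      · rw [slot_inl, slot_inr_mem φ hj, Sum.inl.injEq] at hs
        subst hs
        exact (hfar j hj).1 hab
      · rw [slot_inl, slot_inr_notMem φ hj] at hs
        exact absurd hs (by simp)
    · by_cases hi : i ∈ J
      · rw [slot_inl, slot_inr_mem φ hi, Sum.inl.injEq] at hs
        subst hs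
        exact (hfar i hi).1 (G.adj_symm hab)
      · rw [slot_inl, slot_inr_notMem φ hi] at hs
        exact absurd hs (by simp)
    · exact hab
  have hgap : ∀ x y, Conf G J φ x y → l x + 2 ≤ l y ∨ l y + 2 ≤ l x := by
    intro x y hxy
    by_contra hcon
    push Not at hcon
    have h3 : l x = l y ∨ l y = l x + 1 ∨ l x = l y + 1 := by omega
    rcases h3 with h3 | h3 | h3
    · exact hself x (by have := hlinj x y h3; rw [← this] at hxy; exact hxy)
    · have := hc (pos x) (hpos x)
      rw [← hsucc x y h3, hcpos, hcpos] at this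
      exact this hxy
    · have := hc (pos y) (hpos y)
      rw [← hsucc y x h3, hcpos, hcpos] at this
      exact this (hsymm _ _ hxy)
  refine ⟨lab (fun i => l (slot J φ (.inl i))) (fun i => l (slot J φ (.inr i))),
    good_myc G _ _ ?_ ?_ ?_ ?_ ?_ ?_ ?_, ?_⟩
  · intro i j h
    exact hgap _ _ ⟨_, _, rfl, rfl, h⟩
  · intro i k j _ _ hne h
    have := hlinj _ _ h
    rw [slot_inl, slot_inl, Sum.inl.injEq] at this
    exact hne this
  · intro i j h
    exact hgap _ _ ⟨_, _, rfl, rfl, h⟩
  · intro i k j h1 h2 h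
    have := hlinj _ _ h
    by_cases hj : j ∈ J
    · rw [slot_inl, slot_inr_mem φ hj, Sum.inl.injEq] at this
      subst this
      exact (hfar j hj).2 k h1 h2
    · rw [slot_inl, slot_inr_notMem φ hj] at this
      exact absurd this (by simp)
  · intro i j h
    have := hlinj _ _ h
    by_cases hi : i ∈ J
    · by_cases hj : j ∈ J
      · rw [slot_inr_mem φ hi, slot_inr_mem φ hj, Sum.inl.injEq] at this
        exact hφ i hi j hj this
      · rw [slot_inr_mem φ hi, slot_inr_notMem φ hj] at this
        exact absurd this (by simp)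
    · by_cases hj : j ∈ J
      · rw [slot_inr_notMem φ hi, slot_inr_mem φ hj] at this
        exact absurd this (by simp)
      · rw [slot_inr_notMem φ hi, slot_inr_notMem φ hj, Sum.inr.injEq, Subtype.mk.injEq] at this
        exact this
  · intro j
    apply hl2
    intro h
    by_cases hj : j ∈ J
    · rw [slot_inr_mem φ hj, Sum.inl.injEq] at h
      exact hi0 j hj h
    · rw [slot_inr_notMem φ hj] at h
      exact absurd h (by simp)
  · intro i
    exact hl1 _
  · rintro (i | i | i)
    · exact hlN _
    · exact hlN _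
    · exact Nat.zero_le _

end slots


/-! ### The first Mycielski graph -/

section base

variable {V : Type} [Fintype V] (G : SimpleGraph V) [DecidableRel G.Adj]

theorem base_zero (h : G.maxDegree = 0) :
    ∃ F, Good (myc G) F ∧ ∀ v, F v ≤ Fintype.card V + 1 + G.maxDegree ^ 2 := by
  have hno : ∀ x y, ¬ G.Adj x y := by
    intro x y hxy
    have h1 := G.degree_le_maxDegree x
    rw [h, ← SimpleGraph.card_neighborFinset_eq_degree] at h1
    have h2 : y ∈ G.neighborFinset x := by rw [SimpleGraph.mem_neighborFinset]; exact hxy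
    rw [card_eq_zero.1 (Nat.le_zero.1 h1)] at h2
    exact absurd h2 (notMem_empty _)
  obtain ⟨F, hF, hF2⟩ := step G (fun _ => 0) ⟨fun x y hxy => absurd hxy (hno x y),
    fun x z y hxz _ _ => absurd hxz (hno x z)⟩ 0 (fun _ => le_rfl)
  refine ⟨F, hF, fun v => ?_⟩
  have := hF2 v
  rw [Nat.card_eq_fintype_card] at this
  omega

theorem base_one (h : G.maxDegree = 1) :
    ∃ F, Good (myc G) F ∧ ∀ v, F v ≤ Fintype.card V + 1 + G.maxDegree ^ 2 := by
  classical
  have huniq : ∀ k i j, G.Adj k i → G.Adj k j → i = j := by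
    intro k i j hi hj
    have h1 := G.degree_le_maxDegree k
    rw [h, ← SimpleGraph.card_neighborFinset_eq_degree] at h1
    exact card_le_one.1 h1 i (by rw [SimpleGraph.mem_neighborFinset]; exact hi) j
      (by rw [SimpleGraph.mem_neighborFinset]; exact hj)
  let e := Fintype.equivFin V
  let ρ : V → ℕ := fun v => (e v : ℕ)
  have hρ : ∀ v, ρ v < Fintype.card V := fun v => (e v).isLt
  have hρi : Function.Injective ρ := fun x y hxy => e.injective (Fin.ext hxy)
  let a : V → ℕ := fun v => if ∃ x, G.Adj v x ∧ ρ x < ρ v then Fintype.card V + 2 else 1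
  have ha : ∀ v, a v = 1 ∨ a v = Fintype.card V + 2 := by
    intro v; simp only [a]; split_ifs <;> simp
  have key : ∀ x y, G.Adj x y → ρ x < ρ y → a x = 1 ∧ a y = Fintype.card V + 2 := by
    intro x y hxy hlt
    constructor
    · simp only [a]
      rw [if_neg]
      rintro ⟨z, hz, hlt'⟩
      rw [huniq x z y hz hxy] at hlt'
      omega
    · simp only [a]
      rw [if_pos ⟨x, G.adj_symm hxy, hlt⟩]
  refine ⟨lab a (fun v => 2 + ρ v), good_myc G _ _ ?_ ?_ ?_ ?_ ?_ ?_ ?_, ?_⟩
  · intro i j hij
    have hi := hρ i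
    have hne : ρ i ≠ ρ j := fun h' => hij.ne (hρi h')
    rcases Nat.lt_or_gt_of_ne hne with h' | h'
    · have := key i j hij h'; omega
    · have := key j i (G.adj_symm hij) h'; omega
  · intro i k j hik hkj hne
    exact absurd (huniq k i j (G.adj_symm hik) hkj) hne
  · intro i j hij
    have hi := hρ i
    have hj := hρ j
    have hne : ρ i ≠ ρ j := fun h' => hij.ne (hρi h')
    rcases Nat.lt_or_gt_of_ne hne with h' | h'
    · have := key i j hij h'; omega
    · have := key j i (G.adj_symm hij) h'; omega
  · intro i k j _ _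
    have := ha i
    have := hρ j
    omega
  · intro i j hij
    exact hρi (by dsimp only at hij; omega)
  · intro j; omega
  · intro i
    have := ha i
    omega
  · rw [h]
    rintro (i | i | i)
    · have := ha i
      simp only [lab]
      omega
    · have := hρ i
      simp only [lab]
      omega
    · exact Nat.zero_le _

theorem base_two (h : G.maxDegree = 2) :
    ∃ F, Good (myc G) F ∧ ∀ v, F v ≤ Fintype.card V + 1 + G.maxDegree ^ 2 := by
  classical
  obtain ⟨f, hf, hf4⟩ := goodOn_le_four G _ (univ : Finset V) rfl (by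
    intro v _
    have h1 := G.degree_le_maxDegree v
    rw [h, ← SimpleGraph.card_neighborFinset_eq_degree] at h1
    refine le_trans (card_le_card ?_) h1
    intro x hx
    rw [SimpleGraph.mem_neighborFinset]
    exact (mem_filter.1 hx).2)
  obtain ⟨F, hF, hF2⟩ := step G f ⟨fun x y hxy => hf.1 x (mem_univ _) y (mem_univ _) hxy,
    fun x z y h1 h2 hne => hf.2 x (mem_univ _) z (mem_univ _) y (mem_univ _) h1 h2 hne⟩ 4 hf4
  refine ⟨F, hF, fun v => ?_⟩
  have := hF2 v
  rw [Nat.card_eq_fintype_card] at this
  rw [h]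
  omega

theorem base_small (h2 : 2 ≤ G.maxDegree) (hn : Fintype.card V ≤ 2 * G.maxDegree) :
    ∃ F, Good (myc G) F ∧ ∀ v, F v ≤ Fintype.card V + 1 + G.maxDegree ^ 2 := by
  let e := Fintype.equivFin V
  let ρ : V → ℕ := fun v => (e v : ℕ)
  have hρ : ∀ v, ρ v < Fintype.card V := fun v => (e v).isLt
  have hρi : Function.Injective ρ := fun x y hxy => e.injective (Fin.ext hxy)
  let a : V → ℕ := fun v => 5 * (ρ v / 2) + 1 + 3 * (ρ v % 2)
  let b : V → ℕ := fun v => 5 * (ρ v / 2) + 2 + ρ v % 2
  have ha : ∀ v, a v = 5 * (ρ v / 2) + 1 + 3 * (ρ v % 2) := fun v => rfl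
  have hb : ∀ v, b v = 5 * (ρ v / 2) + 2 + ρ v % 2 := fun v => rfl
  have hΔ : 3 * G.maxDegree ≤ G.maxDegree ^ 2 + 2 := by nlinarith
  refine ⟨lab a b, good_myc G _ _ ?_ ?_ ?_ ?_ ?_ ?_ ?_, ?_⟩
  · intro i j hij
    have hne : ρ i ≠ ρ j := fun h' => hij.ne (hρi h')
    rw [ha, ha]
    omega
  · intro i k j _ _ hij
    have hne : ρ i ≠ ρ j := fun h' => hij (hρi h')
    rw [ha, ha]
    omega
  · intro i j hij
    have hne : ρ i ≠ ρ j := fun h' => hij.ne (hρi h')
    rw [ha, hb]
    omega
  · intro i k j _ _
    rw [ha, hb]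
    rcases Nat.mod_two_eq_zero_or_one (ρ i) with h | h <;>
      rcases Nat.mod_two_eq_zero_or_one (ρ j) with h' | h' <;> rw [h, h'] <;> omega
  · intro i j hij
    rw [hb, hb] at hij
    exact hρi (by omega)
  · intro j; rw [hb]; omega
  · intro i; rw [ha]; omega
  · rintro (i | i | i)
    · have := hρ i
      simp only [lab]
      rw [ha]
      omega
    · have := hρ i
      simp only [lab]
      rw [hb]
      omega
    · exact Nat.zero_le _

open Classical in
theorem card_far (j : V) : Fintype.card V ≤ (univ.filter fun i => ¬ G.Adj i j ∧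
    ∀ k, G.Adj i k → ¬ G.Adj k j).card + (G.maxDegree ^ 2 + 1) := by
  have h1 : (univ.filter fun i => ¬ (¬ G.Adj i j ∧ ∀ k, G.Adj i k → ¬ G.Adj k j)) ⊆
      insert j (G.neighborFinset j ∪
        (G.neighborFinset j).biUnion fun k => (G.neighborFinset k).erase j) := by
    intro i hi
    rw [mem_filter] at hi
    have hi2 := hi.2
    rw [mem_insert, mem_union, mem_biUnion]
    by_cases hij : i = j
    · exact Or.inl hij
    right
    by_cases hadj : G.Adj i j
    · left
      rw [SimpleGraph.mem_neighborFinset]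
      exact G.adj_symm hadj
    · right
      have h3 : ¬ ∀ k, G.Adj i k → ¬ G.Adj k j := fun h => hi2 ⟨hadj, h⟩
      push Not at h3
      obtain ⟨k, hik, hkj⟩ := h3
      refine ⟨k, ?_, ?_⟩
      · rw [SimpleGraph.mem_neighborFinset]; exact G.adj_symm hkj
      · rw [mem_erase, SimpleGraph.mem_neighborFinset]
        exact ⟨hij, G.adj_symm hik⟩
  have h2 : ((G.neighborFinset j).biUnion fun k => (G.neighborFinset k).erase j).card ≤
      (G.neighborFinset j).card * (G.maxDegree - 1) := by
    apply card_biUnion_le_card_mul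
    intro k hk
    rw [SimpleGraph.mem_neighborFinset] at hk
    rw [card_erase_of_mem (by rw [SimpleGraph.mem_neighborFinset]; exact G.adj_symm hk),
      SimpleGraph.card_neighborFinset_eq_degree]
    exact Nat.sub_le_sub_right (G.degree_le_maxDegree k) 1
  have h3 : (G.neighborFinset j).card ≤ G.maxDegree := by
    rw [SimpleGraph.card_neighborFinset_eq_degree]; exact G.degree_le_maxDegree j
  have h4 := (card_le_card h1).trans ((card_insert_le _ _).trans
    (Nat.add_le_add_right (card_union_le _ _) 1))
  have h5 : (G.neighborFinset j).card * (G.maxDegree - 1) ≤ G.maxDegree * (G.maxDegree - 1) :=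
    Nat.mul_le_mul_right _ h3
  have h6 : G.maxDegree * (G.maxDegree - 1) + G.maxDegree = G.maxDegree ^ 2 := by
    rcases Nat.eq_zero_or_pos G.maxDegree with h | h
    · rw [h]; rfl
    · obtain ⟨d, hd⟩ : ∃ d, G.maxDegree = d + 1 := ⟨G.maxDegree - 1, by omega⟩
      rw [hd, Nat.add_sub_cancel]
      ring
  have h7 := card_filter_add_card_filter_not (s := (univ : Finset V))
    (fun i => ¬ G.Adj i j ∧ ∀ k, G.Adj i k → ¬ G.Adj k j)
  rw [card_univ] at h7
  omega

theorem base_large (h3 : 3 ≤ G.maxDegree) (hn : 2 * G.maxDegree + 1 ≤ Fintype.card V) :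
    ∃ F, Good (myc G) F ∧ ∀ v, F v ≤ Fintype.card V + 1 + G.maxDegree ^ 2 := by
  classical
  have hpos : 0 < Fintype.card V := by omega
  obtain ⟨v0⟩ : Nonempty V := Fintype.card_pos_iff.1 hpos
  rcases Nat.le_total (Fintype.card V) (G.maxDegree ^ 2 + 1) with hc | hc
  · -- no merging
    obtain ⟨F, hF, hF2⟩ := slots G ∅ id (fun i hi => absurd hi (notMem_empty _))
      (fun i hi => absurd hi (notMem_empty _)) v0 (fun i hi => absurd hi (notMem_empty _))
      (2 * G.maxDegree) (fun x => by convert card_conf_empty G id x) (by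
        rw [card_empty]; omega)
    refine ⟨F, hF, fun v => ?_⟩
    have := hF2 v
    rw [card_empty] at this
    omega
  · obtain ⟨J, -, hJ⟩ := exists_subset_card_eq (s := (univ : Finset V))
      (n := Fintype.card V - (G.maxDegree ^ 2 + 1)) (by rw [card_univ]; omega)
    let t : {j // j ∈ J} → Finset V := fun j => univ.filter fun i => ¬ G.Adj i j.1 ∧
      ∀ k, G.Adj i k → ¬ G.Adj k j.1
    have hall : ∀ s : Finset {j // j ∈ J}, s.card ≤ (s.biUnion t).card := by
      intro s
      rcases s.eq_empty_or_nonempty with rfl | ⟨j, hj⟩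
      · simp
      · have h1 : s.card ≤ J.card := by
          have := card_le_univ s
          rwa [Fintype.card_coe] at this
        have h2 : (t j).card ≤ (s.biUnion t).card := card_le_card (subset_biUnion_of_mem t hj)
        have h4 : Fintype.card V ≤ (t j).card + (G.maxDegree ^ 2 + 1) := by
          convert card_far G j.1
        omega
    obtain ⟨f, hfi, hft⟩ := (all_card_le_biUnion_card_iff_exists_injective t).1 hall
    let φ : V → V := fun j => if h : j ∈ J then f ⟨j, h⟩ else j
    have hφ : ∀ j (h : j ∈ J), φ j = f ⟨j, h⟩ := by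
      intro j h; simp only [φ, h, dite_true]
    obtain ⟨i0, hi0⟩ : ∃ i0, i0 ∉ J.image φ := by
      by_contra hcon
      push Not at hcon
      have h1 : (univ : Finset V) ⊆ J.image φ := fun x _ => hcon x
      have h2 := (card_le_card h1).trans card_image_le
      rw [card_univ] at h2
      omega
    obtain ⟨F, hF, hF2⟩ := slots G J φ (by
        intro i hi j hj h
        rw [hφ i hi, hφ j hj] at h
        have := hfi h
        exact congrArg Subtype.val this) (by
        intro j hj
        rw [hφ j hj]
        exact (mem_filter.1 (hft ⟨j, hj⟩)).2) i0 (by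
        intro j hj h
        exact hi0 (mem_image.2 ⟨j, hj, h⟩)) (3 * G.maxDegree) (fun x => by
        convert card_conf G J φ (by
          intro i hi j hj h
          rw [hφ i hi, hφ j hj] at h
          have := hfi h
          exact congrArg Subtype.val this) x) (by
        rw [hJ]
        have : 3 * G.maxDegree ≤ G.maxDegree ^ 2 := by nlinarith
        omega)
    refine ⟨F, hF, fun v => ?_⟩
    have := hF2 v
    rw [hJ] at this
    omega

theorem base : ∃ F, Good (myc G) F ∧ ∀ v, F v ≤ Fintype.card V + 1 + G.maxDegree ^ 2 := by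
  rcases Nat.lt_or_ge G.maxDegree 3 with h | h
  · have : G.maxDegree = 0 ∨ G.maxDegree = 1 ∨ G.maxDegree = 2 := by omega
    rcases this with h | h | h
    · exact base_zero G h
    · exact base_one G h
    · exact base_two G h
  · rcases Nat.lt_or_ge (Fintype.card V) (2 * G.maxDegree + 1) with h2 | h2
    · exact base_small G (by omega) (by omega)
    · exact base_large G h h2

end base

/-! ### All iterations -/

instance finite_mycType (V : Type) [Finite V] (t : ℕ) : Finite (MycType V t) := by
  induction t with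
  | zero => exact ‹Finite V›
  | succ t ih => exact (inferInstance : Finite (MycType V t ⊕ (MycType V t ⊕ Unit)))

theorem card_mycType (V : Type) [Finite V] (t : ℕ) :
    Nat.card (MycType V t) + 1 = 2 ^ t * (Nat.card V + 1) := by
  induction t with
  | zero => simp [MycType]
  | succ t ih =>
    have h : Nat.card (MycType V (t + 1)) = Nat.card (MycType V t) + (Nat.card (MycType V t) + 1) := by
      show Nat.card (MycType V t ⊕ (MycType V t ⊕ Unit)) = _
      rw [Nat.card_sum, Nat.card_sum, Nat.card_unique (α := Unit)]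
    rw [h, pow_succ, mul_comm (2 ^ t) 2, mul_assoc, ← ih]
    ring

theorem iter_good {V : Type} [Fintype V] (G : SimpleGraph V) [DecidableRel G.Adj] (t : ℕ) :
    ∃ F, Good (mycIter G (t + 1)) F ∧
      ∀ v, F v ≤ (2 ^ (t + 1) - 1) * (Fintype.card V + 1) + G.maxDegree ^ 2 := by
  induction t with
  | zero =>
    obtain ⟨F, hF, hF2⟩ := base G
    refine ⟨F, hF, fun v => (hF2 v).trans (le_of_eq ?_)⟩
    norm_num
  | succ t ih =>
    obtain ⟨f, hf, hf2⟩ := ih
    obtain ⟨F, hF, hF2⟩ := step (mycIter G (t + 1)) f hf _ hf2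
    refine ⟨F, hF, fun v => (hF2 v).trans (le_of_eq ?_)⟩
    rw [card_mycType, Nat.card_eq_fintype_card]
    have h1 : 1 ≤ 2 ^ (t + 1) := Nat.one_le_two_pow
    obtain ⟨m, hm⟩ : ∃ m, 2 ^ (t + 1) = m + 1 := ⟨2 ^ (t + 1) - 1, by omega⟩
    have h2 : 2 ^ (t + 1 + 1) = m + 1 + (m + 1) := by rw [pow_succ, hm]; ring
    rw [h2, hm]
    have h3 : m + 1 + (m + 1) - 1 = m + (m + 1) := by omega
    rw [h3, Nat.add_sub_cancel]
    ring

/-- `λ(M^t(G)) ≤ (2^t - 1)(n + 1) + Δ^2` for every nonempty finite graph `G` and every `t ≥ 1`. -/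
theorem result : ∀ (V : Type) [Fintype V] [Nonempty V] (G : SimpleGraph V) [DecidableRel G.Adj]
    (t : ℕ), 1 ≤ t →
      lam (mycIter G t) ≤ (2 ^ t - 1) * (Fintype.card V + 1) + G.maxDegree ^ 2 := by
  intro V _ _ G _ t ht
  obtain ⟨s, rfl⟩ : ∃ s, t = s + 1 := ⟨t - 1, by omega⟩
  obtain ⟨F, hF, hF2⟩ := iter_good G s
  exact Nat.sInf_le ⟨F, hF.isL21, hF2⟩


end Pool.Agent.Results.MP_f0917b_co.AllGraphs
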